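import Mathlib
import Pool.Agent.Helper259.HtDef
import Pool.Agent.Helper259.HtPoly
import Pool.Agent.Helper259.AbsHt

set_option autoImplicit false

namespace Pool.Agent.H456R2

open Pool.Agent.Helper259.AbsHt Pool.Agent.Helper259.HtPoly

/-- absolute logarithmic height of an algebraic number -/
noncomputable def h1 (a : Qbar) : ℝ := absLogHeight ![1, a]

lemma h1_nonneg (a : Qbar) : 0 ≤ h1 a := absLogHeight_nonneg _

lemma vec_ne_zero (a : Qbar) : (![1, a] : Fin 2 → Qbar) ≠ 0 := by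
  intro h
  have := congrFun h 0
  simp at this

lemma h1_mul_le (a b : Qbar) : h1 (a * b) ≤ h1 a + h1 b := by
  have h := absLogHeight_segre (vec_ne_zero a) (vec_ne_zero b)
  have h2 := absLogHeight_comp_le (fun i : Fin 2 => (i, i))
    (fun p : Fin 2 × Fin 2 => (![1, a] : Fin 2 → Qbar) p.1 * (![1, b] : Fin 2 → Qbar) p.2)
  have e : (fun p : Fin 2 × Fin 2 => (![1, a] : Fin 2 → Qbar) p.1 * (![1, b] : Fin 2 → Qbar) p.2) ∘
      (fun i : Fin 2 => (i, i)) = ![1, a * b] := by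
    funext i
    fin_cases i <;> simp
  rw [e, h] at h2
  exact h2

lemma h1_add_le : ∃ C : ℝ, 0 ≤ C ∧ ∀ a b : Qbar, h1 (a + b) ≤ C + h1 a + h1 b := by
  set A : Fin 2 × (Fin 2 × Fin 2) → Qbar := fun q =>
    if q = (0, (0, 0)) then 1 else if q = (1, (0, 1)) then 1 else if q = (1, (1, 0)) then 1 else 0
    with hA
  refine ⟨max 0 (Real.log (Nat.card (Fin 2 × Fin 2)) + absLogHeight A), le_max_left _ _,
    fun a b => ?_⟩
  have h := absLogHeight_segre (vec_ne_zero a) (vec_ne_zero b)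
  have h2 := absLogHeight_linear A
    (fun p : Fin 2 × Fin 2 => (![1, a] : Fin 2 → Qbar) p.1 * (![1, b] : Fin 2 → Qbar) p.2)
  have e : (fun j : Fin 2 => ∑ i, A (j, i) *
      ((![1, a] : Fin 2 → Qbar) i.1 * (![1, b] : Fin 2 → Qbar) i.2)) = ![1, a + b] := by
    funext j
    rw [Fintype.sum_prod_type]
    simp only [Fin.sum_univ_two]
    fin_cases j
    · simp [hA]
    · simp [hA, add_comm]
  rw [e, h] at h2
  have h3 := le_max_right 0 (Real.log (Nat.card (Fin 2 × Fin 2)) + absLogHeight A)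
  unfold h1
  linarith

lemma h1_root (n : ℕ) : ∃ C : ℝ, ∀ (P : Polynomial Qbar) (α : Qbar), P ≠ 0 →
    P.natDegree ≤ n → P.eval α = 0 → h1 α ≤ C + ∑ i : Fin (n + 1), h1 (P.coeff i) := by
  obtain ⟨C, hC⟩ := absLogHeight_root n
  refine ⟨C, fun P α hP hn hroot => ?_⟩
  have h := hC P α hP hn hroot
  have h2 := absLogHeight_le_sum (cv n P)
  have h3 : ∑ i : Fin (n + 1), absLogHeight ![1, cv n P i] = ∑ i : Fin (n + 1), h1 (P.coeff i) := rfl
  rw [h3] at h2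
  unfold h1 at h2 ⊢
  linarith

/-- the function `H` on the points of `A` controls the heights of the values of all elements -/
def Ctrl (A : Type*) [CommRing A] [Algebra Qbar A] (H : (A →ₐ[Qbar] Qbar) → ℝ) : Prop :=
  (∀ φ, 0 ≤ H φ) ∧ ∀ a : A, ∃ C : ℝ, ∀ φ : A →ₐ[Qbar] Qbar, h1 (φ a) ≤ C * (1 + H φ)

/-- the subring of the controlled elements -/
def ctrlSub (A : Type*) [CommRing A] [Algebra Qbar A] (H : (A →ₐ[Qbar] Qbar) → ℝ)
    (h0 : ∀ φ, 0 ≤ H φ) : Subalgebra Qbar A where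
  carrier := {a | ∃ C : ℝ, ∀ φ : A →ₐ[Qbar] Qbar, h1 (φ a) ≤ C * (1 + H φ)}
  mul_mem' := by
    rintro a b ⟨C, hC⟩ ⟨D, hD⟩
    refine ⟨C + D, fun φ => ?_⟩
    rw [map_mul]
    have := h1_mul_le (φ a) (φ b)
    have h1' := hC φ
    have h2' := hD φ
    nlinarith
  add_mem' := by
    rintro a b ⟨C, hC⟩ ⟨D, hD⟩
    obtain ⟨E, hE0, hE⟩ := h1_add_le
    refine ⟨C + D + E, fun φ => ?_⟩
    rw [map_add]
    have := hE (φ a) (φ b)
    have h1' := hC φ
    have h2' := hD φ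
    have h3' := mul_nonneg hE0 (h0 φ)
    nlinarith
  algebraMap_mem' := by
    intro r
    refine ⟨h1 r, fun φ => ?_⟩
    rw [AlgHom.commutes]
    have h3' := mul_nonneg (h1_nonneg r) (h0 φ)
    have : algebraMap Qbar Qbar r = r := rfl
    rw [this]
    nlinarith

lemma mem_ctrlSub {A : Type*} [CommRing A] [Algebra Qbar A] {H : (A →ₐ[Qbar] Qbar) → ℝ}
    (h0 : ∀ φ, 0 ≤ H φ) (a : A) : a ∈ ctrlSub A H h0 ↔
      ∃ C : ℝ, ∀ φ : A →ₐ[Qbar] Qbar, h1 (φ a) ≤ C * (1 + H φ) := Iff.rfl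

end Pool.Agent.H456R2
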