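import Mathlib
import Pool.Agent.H456R2.Ctrl

set_option autoImplicit false

namespace Pool.Agent.H456R2

open Pool.Agent.Helper259.AbsHt Pool.Agent.Helper259.HtPoly Polynomial

lemma pseudo_div {A : Type*} [CommRing A] [IsDomain A] (f : A[X]) (hf : 0 < f.natDegree) :
    ∀ (n : ℕ) (g : A[X]), g.natDegree ≤ n → ∃ (k : ℕ) (q r : A[X]),
      C (f.leadingCoeff ^ k) * g = f * q + r ∧ r.natDegree < f.natDegree := by
  intro n
  induction n with
  | zero =>
    intro g hg
    exact ⟨0, 0, g, by simp, by omega⟩
  | succ n ih =>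
    intro g hg
    by_cases hlt : g.natDegree < f.natDegree
    · exact ⟨0, 0, g, by simp, hlt⟩
    · have hle : f.natDegree ≤ g.natDegree := by omega
      have h2 := natDegree_cancelLeads_lt_of_natDegree_le_natDegree hle (by omega)
      obtain ⟨k, q, r, h3, h4⟩ := ih (f.cancelLeads g) (by omega)
      refine ⟨k + 1, q + C (f.leadingCoeff ^ k) * (C g.leadingCoeff * X ^ (g.natDegree - f.natDegree)),
        r, ?_, h4⟩
      rw [cancelLeads, Nat.sub_eq_zero_of_le hle, pow_zero, mul_one] at h3
      rw [pow_succ, C_mul]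
      linear_combination h3

lemma exists_nat_eval_ne_zero (p : Qbar[X]) (hp : p ≠ 0) :
    ∃ k : ℕ, k ≤ p.natDegree ∧ p.eval (k : Qbar) ≠ 0 := by
  classical
  by_contra hcon
  push Not at hcon
  have hsub : (Finset.range (p.natDegree + 1)).image (fun k : ℕ => (k : Qbar)) ⊆ p.roots.toFinset := by
    intro x hx
    rw [Finset.mem_image] at hx
    obtain ⟨k, hk, rfl⟩ := hx
    rw [Finset.mem_range] at hk
    rw [Multiset.mem_toFinset, mem_roots hp]
    exact hcon k (by omega)
  have h1 := Finset.card_le_card hsub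
  rw [Finset.card_image_of_injective _ Nat.cast_injective, Finset.card_range] at h1
  have h2 := p.roots.toFinset_card_le
  have h3 := p.card_roots'
  omega

/-- extension of points along an extension of domains with one generator, with control of the
height -/
theorem step {A B : Type*} [CommRing A] [IsDomain A] [Algebra Qbar A] [CommRing B] [IsDomain B]
    [Algebra Qbar B] [Algebra A B] [IsScalarTower Qbar A B]
    (hinj : Function.Injective (algebraMap A B)) (b : B) (hb : Algebra.adjoin A {b} = ⊤)
    (H : (A →ₐ[Qbar] Qbar) → ℝ) (hH : Ctrl A H) (v : B) (hv : v ≠ 0) :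
    ∃ u : A, u ≠ 0 ∧ ∃ D : ℝ, ∀ φ : A →ₐ[Qbar] Qbar, φ u ≠ 0 →
      ∃ ψ : B →ₐ[Qbar] Qbar, (∀ a, ψ (algebraMap A B a) = φ a) ∧ ψ v ≠ 0 ∧
        h1 (ψ b) ≤ D * (1 + H φ) := by
  classical
  have hsurj : Function.Surjective (aeval b : A[X] →ₐ[A] B) := by
    rw [← AlgHom.range_eq_top, ← Algebra.adjoin_singleton_eq_range_aeval]
    exact hb
  -- lifting tool
  have lift : ∀ (φ : A →ₐ[Qbar] Qbar) (ξ : Qbar),
      (∀ g : A[X], aeval b g = 0 → (g.map (φ : A →+* Qbar)).eval ξ = 0) →
      ∃ ψ : B →ₐ[Qbar] Qbar, ∀ g : A[X], ψ (aeval b g) = (g.map (φ : A →+* Qbar)).eval ξ := by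
    intro φ ξ hker
    let θ : A[X] →ₐ[Qbar] Qbar :=
      { eval₂RingHom (φ : A →+* Qbar) ξ with
        commutes' := fun r => by
          show eval₂ (φ : A →+* Qbar) ξ (algebraMap Qbar A[X] r) = _
          rw [Polynomial.algebraMap_apply, eval₂_C]
          exact φ.commutes r }
    have hθ : ∀ g, θ g = (g.map (φ : A →+* Qbar)).eval ξ := fun g => (eval_map _ _).symm
    let α : A[X] →ₐ[Qbar] B := (aeval b : A[X] →ₐ[A] B).restrictScalars Qbar
    have hα : Function.Surjective α := hsurj
    have hk : RingHom.ker α.toRingHom ≤ RingHom.ker θ.toRingHom := by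
      intro g hg
      rw [RingHom.mem_ker] at hg ⊢
      exact (hθ g).trans (hker g hg)
    refine ⟨AlgHom.liftOfSurjective α hα θ hk, fun g => ?_⟩
    have := AlgHom.liftOfSurjective_apply (f := α) hα θ hk g
    rw [← hθ]
    exact this
  by_cases halg : IsAlgebraic A b
  · -- algebraic case
    -- polynomial of minimal degree
    have hex : ∃ n, ∃ f : A[X], f ≠ 0 ∧ aeval b f = 0 ∧ f.natDegree = n := by
      obtain ⟨f, hf, hf0⟩ := halg
      exact ⟨_, f, hf, hf0, rfl⟩
    obtain ⟨f, hf, hf0, hfn⟩ := Nat.find_spec hex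
    have hmin : ∀ g : A[X], aeval b g = 0 → g.natDegree < f.natDegree → g = 0 := by
      intro g hg hlt
      by_contra hg0
      exact Nat.find_min hex (by rw [← hfn]; exact hlt) ⟨g, hg0, hg, rfl⟩
    have hdeg : 0 < f.natDegree := by
      rcases Nat.eq_zero_or_pos f.natDegree with h | h
      · exfalso
        rw [natDegree_eq_zero] at h
        obtain ⟨a, rfl⟩ := h
        rw [aeval_C] at hf0
        apply hf
        have : a = 0 := hinj (by rw [hf0, map_zero])
        rw [this, C_0]
      · exact h
    -- every element of `B` is algebraic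
    have hvalg : IsAlgebraic A v := by
      have hle : Algebra.adjoin A {b} ≤ Subalgebra.algebraicClosure A B := by
        rw [Algebra.adjoin_le_iff]
        rintro x hx
        rw [Set.mem_singleton_iff] at hx
        subst hx
        exact halg
      rw [hb] at hle
      exact hle Algebra.mem_top
    obtain ⟨c, hc, w, hw⟩ := hvalg.exists_nonzero_dvd (mem_nonZeroDivisors_of_ne_zero hv)
    obtain ⟨C0, hC0⟩ := h1_root f.natDegree
    choose Cc hCc using fun i : Fin (f.natDegree + 1) => hH.2 (f.coeff i)
    refine ⟨f.leadingCoeff * c, mul_ne_zero (leadingCoeff_ne_zero.mpr hf) hc,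
      |C0| + ∑ i, Cc i, fun φ hφ => ?_⟩
    rw [map_mul] at hφ
    have hφ1 : φ f.leadingCoeff ≠ 0 := left_ne_zero_of_mul hφ
    have hφ2 : φ c ≠ 0 := right_ne_zero_of_mul hφ
    have hnat : (f.map (φ : A →+* Qbar)).natDegree = f.natDegree :=
      natDegree_map_of_leadingCoeff_ne_zero _ hφ1
    have hne : f.map (φ : A →+* Qbar) ≠ 0 := by
      intro h
      rw [h, natDegree_zero] at hnat
      omega
    obtain ⟨ξ, hξ⟩ := IsAlgClosed.exists_root (f.map (φ : A →+* Qbar)) (by
      rw [degree_eq_natDegree hne, hnat]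
      exact_mod_cast hdeg.ne')
    obtain ⟨ψ, hψ⟩ := lift φ ξ (by
      intro g hg
      obtain ⟨k, q, r, h3, h4⟩ := pseudo_div f hdeg g.natDegree g le_rfl
      have hr : r = 0 := by
        apply hmin r _ h4
        have := congrArg (aeval b) h3
        rw [map_mul, hg, mul_zero, map_add, map_mul, hf0, zero_mul, zero_add] at this
        exact this.symm
      rw [hr, add_zero] at h3
      have h5 := congrArg (fun p : A[X] => (p.map (φ : A →+* Qbar)).eval ξ) h3
      have h6 : (f.map (φ : A →+* Qbar)).eval ξ = 0 := hξ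
      simp only [Polynomial.map_mul, eval_mul, Polynomial.map_C, eval_C] at h5
      rw [h6, zero_mul] at h5
      have h7 : (φ : A →+* Qbar) (f.leadingCoeff ^ k) ≠ 0 := by
        rw [map_pow]
        exact pow_ne_zero _ hφ1
      exact (mul_eq_zero.mp h5).resolve_left h7)
    refine ⟨ψ, fun a => ?_, ?_, ?_⟩
    · have := hψ (C a)
      rw [aeval_C, map_C, eval_C] at this
      exact this
    · intro h
      apply hφ2
      have h7 : ψ (algebraMap A B c) = φ c := by
        have := hψ (C c)
        rw [aeval_C, map_C, eval_C] at this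
        exact this
      rw [← h7, hw, map_mul, h, zero_mul]
    · have hb' : ψ b = ξ := by
        have := hψ X
        rw [aeval_X, map_X, eval_X] at this
        exact this
      rw [hb']
      have h8 := hC0 _ ξ hne hnat.le hξ
      have h9 : ∑ i : Fin (f.natDegree + 1), h1 ((f.map (φ : A →+* Qbar)).coeff i) ≤
          ∑ i : Fin (f.natDegree + 1), Cc i * (1 + H φ) := by
        refine Finset.sum_le_sum fun i _ => ?_
        rw [coeff_map]
        exact hCc i φ
      rw [← Finset.sum_mul] at h9
      have h10 := hH.1 φ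
      have h11 := le_abs_self C0
      have h12 := mul_nonneg (abs_nonneg C0) h10
      nlinarith
  · -- transcendental case
    obtain ⟨p, hp⟩ := hsurj v
    have hp0 : p ≠ 0 := by
      rintro rfl
      rw [map_zero] at hp
      exact hv hp.symm
    have hker : ∀ g : A[X], aeval b g = 0 → g = 0 := by
      intro g hg
      by_contra hg0
      exact halg ⟨g, hg0, hg⟩
    refine ⟨p.leadingCoeff, leadingCoeff_ne_zero.mpr hp0,
      ∑ k ∈ Finset.range (p.natDegree + 1), h1 (k : Qbar), fun φ hφ => ?_⟩
    have hnat : (p.map (φ : A →+* Qbar)).natDegree = p.natDegree :=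
      natDegree_map_of_leadingCoeff_ne_zero _ hφ
    have hne : p.map (φ : A →+* Qbar) ≠ 0 := by
      intro h
      apply hφ
      have h2 := congrArg (fun q : Qbar[X] => q.coeff p.natDegree) h
      simpa using h2
    obtain ⟨k, hk, hk2⟩ := exists_nat_eval_ne_zero _ hne
    obtain ⟨ψ, hψ⟩ := lift φ (k : Qbar) (by
      intro g hg
      rw [hker g hg]
      simp)
    refine ⟨ψ, fun a => ?_, ?_, ?_⟩
    · have := hψ (C a)
      rw [aeval_C, map_C, eval_C] at this
      exact this
    · rw [← hp, hψ]
      exact hk2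
    · have hb' : ψ b = (k : Qbar) := by
        have := hψ X
        rw [aeval_X, map_X, eval_X] at this
        exact this
      rw [hb']
      have h3 : h1 (k : Qbar) ≤ ∑ k ∈ Finset.range (p.natDegree + 1), h1 (k : Qbar) := by
        apply Finset.single_le_sum (f := fun k : ℕ => h1 (k : Qbar)) (fun i _ => h1_nonneg _)
        rw [Finset.mem_range]
        omega
      have h4 := hH.1 φ
      have h5 := (h1_nonneg (k : Qbar)).trans h3
      nlinarith [mul_nonneg h5 h4]

end Pool.Agent.H456R2
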