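import Mathlib
import Pool.Agent.H456R2.Step

set_option autoImplicit false

namespace Pool.Agent.H456R2

open Pool.Agent.Helper259.AbsHt Pool.Agent.Helper259.HtPoly

/-- extension of points along a finitely generated extension of domains -/
theorem multi {B : Type} [CommRing B] [IsDomain B] [Algebra Qbar B] (N : ℕ) :
    ∀ (A : Type) [CommRing A] [IsDomain A] [Algebra Qbar A] [Algebra A B]
      [IsScalarTower Qbar A B], Function.Injective (algebraMap A B) → ∀ (b : Fin N → B),
      Algebra.adjoin A (Set.range b) = ⊤ → ∀ (H : (A →ₐ[Qbar] Qbar) → ℝ), Ctrl A H →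
      ∀ v : B, v ≠ 0 →
    ∃ u : A, u ≠ 0 ∧ ∃ D : ℝ, ∀ φ : A →ₐ[Qbar] Qbar, φ u ≠ 0 →
      ∃ ψ : B →ₐ[Qbar] Qbar, (∀ a, ψ (algebraMap A B a) = φ a) ∧ ψ v ≠ 0 ∧
        ∀ i, h1 (ψ (b i)) ≤ D * (1 + H φ) := by
  induction N with
  | zero =>
    intro A _ _ _ _ _ hinj b hb H hH v hv
    have hr : Set.range b = ∅ := by
      ext x
      simp
    rw [hr, Algebra.adjoin_empty] at hb
    have hbij : Function.Bijective (algebraMap A B) := by
      refine ⟨hinj, fun x => ?_⟩
      have : x ∈ (⊥ : Subalgebra A B) := by rw [hb]; exact Algebra.mem_top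
      rwa [Algebra.mem_bot] at this
    obtain ⟨u, hu⟩ := hbij.2 v
    refine ⟨u, ?_, 0, fun φ hφ => ?_⟩
    · rintro rfl
      rw [map_zero] at hu
      exact hv hu.symm
    · let e : A ≃ₐ[Qbar] B := AlgEquiv.ofBijective (IsScalarTower.toAlgHom Qbar A B) hbij
      have he : ∀ a, e a = algebraMap A B a := fun a => rfl
      refine ⟨φ.comp (e.symm : B →ₐ[Qbar] A), fun a => ?_, ?_, fun i => i.elim0⟩
      · rw [← he]
        simp
      · rw [← hu, ← he]
        simpa using hφ
  | succ N ih =>
    intro A _ _ _ _ _ hinj b hb H hH v hv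
    let A' := Algebra.adjoin A ({b 0} : Set B)
    have hb0 : b 0 ∈ A' := Algebra.subset_adjoin rfl
    let b0 : A' := ⟨b 0, hb0⟩
    -- the extension `A ⊆ A'`
    have hinj1 : Function.Injective (algebraMap A A') := by
      intro x y hxy
      apply hinj
      exact congrArg (fun z : A' => (z : B)) hxy
    have hadj1 : Algebra.adjoin A ({b0} : Set A') = ⊤ := by
      have h := Algebra.adjoin_adjoin_coe_preimage (R := A) (s := ({b 0} : Set B))
      have h2 : ((↑) ⁻¹' ({b 0} : Set B) : Set (Algebra.adjoin A ({b 0} : Set B))) = {b0} := by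
        ext x
        simp only [Set.mem_preimage, Set.mem_singleton_iff]
        exact ⟨fun h => Subtype.ext h, fun h => congrArg _ h⟩
      rw [h2] at h
      exact h
    let res : (A' →ₐ[Qbar] Qbar) → (A →ₐ[Qbar] Qbar) := fun ψ =>
      ψ.comp (IsScalarTower.toAlgHom Qbar A A')
    have hres : ∀ (ψ : A' →ₐ[Qbar] Qbar) (a : A), res ψ a = ψ (algebraMap A A' a) := fun _ _ => rfl
    let H' : (A' →ₐ[Qbar] Qbar) → ℝ := fun ψ => H (res ψ) + h1 (ψ b0)
    have hH0 : ∀ ψ, 0 ≤ H' ψ := fun ψ => add_nonneg (hH.1 _) (h1_nonneg _)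
    have hH' : Ctrl A' H' := by
      refine ⟨hH0, fun a' => ?_⟩
      rw [← mem_ctrlSub hH0]
      have hmem : a' ∈ Algebra.adjoin A ({b0} : Set A') := by rw [hadj1]; exact Algebra.mem_top
      induction hmem using Algebra.adjoin_induction with
      | mem x hx =>
        rw [Set.mem_singleton_iff] at hx
        subst hx
        rw [mem_ctrlSub]
        refine ⟨1, fun ψ => ?_⟩
        have := hH.1 (res ψ)
        show h1 (ψ b0) ≤ 1 * (1 + (H (res ψ) + h1 (ψ b0)))
        linarith
      | algebraMap r =>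
        rw [mem_ctrlSub]
        obtain ⟨C, hC⟩ := hH.2 r
        refine ⟨|C|, fun ψ => ?_⟩
        have h1' := hC (res ψ)
        rw [hres] at h1'
        have h2' := le_abs_self C
        have h3' := hH.1 (res ψ)
        have h4' := h1_nonneg (ψ b0)
        show _ ≤ |C| * (1 + (H (res ψ) + h1 (ψ b0)))
        have h5' := mul_nonneg (abs_nonneg C) h4'
        nlinarith
      | add x y _ _ hx hy => exact add_mem hx hy
      | mul x y _ _ hx hy => exact mul_mem hx hy
    -- the extension `A' ⊆ B`
    have hinj2 : Function.Injective (algebraMap A' B) := Subtype.val_injective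
    have hadj2 : Algebra.adjoin A' (Set.range (fun i : Fin N => b i.succ)) = ⊤ := by
      rw [eq_top_iff]
      rintro x -
      have hx : x ∈ Algebra.adjoin A (Set.range b) := by rw [hb]; exact Algebra.mem_top
      induction hx using Algebra.adjoin_induction with
      | mem x hx =>
        obtain ⟨i, rfl⟩ := hx
        refine Fin.cases ?_ (fun j => ?_) i
        · exact Subalgebra.algebraMap_mem (Algebra.adjoin A' (Set.range (fun i : Fin N => b i.succ)))
            b0
        · exact Algebra.subset_adjoin ⟨j, rfl⟩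
      | algebraMap r =>
        exact Subalgebra.algebraMap_mem (Algebra.adjoin A' (Set.range (fun i : Fin N => b i.succ)))
            (algebraMap A A' r)
      | add x y _ _ hx hy => exact add_mem hx hy
      | mul x y _ _ hx hy => exact mul_mem hx hy
    obtain ⟨u', hu', D', hD'⟩ := ih A' hinj2 (fun i => b i.succ) hadj2 H' hH' v hv
    obtain ⟨u, hu, D, hD⟩ := step hinj1 b0 hadj1 H hH u' hu'
    refine ⟨u, hu, |D| + |D'| * (1 + |D|), fun φ hφ => ?_⟩
    obtain ⟨ψ', h1', h2', h3'⟩ := hD φ hφ
    obtain ⟨ψ, h4', h5', h6'⟩ := hD' ψ' h2'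
    have hresψ : res ψ' = φ := by
      ext a
      exact h1' a
    have hφ0 := hH.1 φ
    have e1 : D * (1 + H φ) ≤ |D| * (1 + H φ) :=
      mul_le_mul_of_nonneg_right (le_abs_self D) (by linarith)
    have e2 : 0 ≤ |D'| * (1 + |D|) * (1 + H φ) := by positivity
    have e3 : 0 ≤ |D| * (1 + H φ) := by positivity
    refine ⟨ψ, fun a => ?_, h5', fun i => ?_⟩
    · rw [← h1' a, ← h4']
      rfl
    · refine Fin.cases ?_ (fun j => ?_) i
      · have : ψ (b 0) = ψ' b0 := by
          rw [← h4']
          rfl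
        rw [this]
        nlinarith
      · have h7 := h6' j
        have h8 : H' ψ' = H φ + h1 (ψ' b0) := by
          show H (res ψ') + _ = _
          rw [hresψ]
        have h9 : H' ψ' ≤ H φ + |D| * (1 + H φ) := by
          rw [h8]; linarith
        have h10 : D' * (1 + H' ψ') ≤ |D'| * (1 + H' ψ') :=
          mul_le_mul_of_nonneg_right (le_abs_self D') (by have := hH0 ψ'; linarith)
        have h11 : |D'| * (1 + H' ψ') ≤ |D'| * (1 + (H φ + |D| * (1 + H φ))) :=
          mul_le_mul_of_nonneg_left (by linarith) (abs_nonneg D')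
        have h12 : |D'| * (1 + (H φ + |D| * (1 + H φ))) = |D'| * (1 + |D|) * (1 + H φ) := by ring
        nlinarith

end Pool.Agent.H456R2
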