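import Mathlib
import Pool.Agent.Helper259.HtDef

set_option autoImplicit false

namespace Pool.Agent.H456R2.QP

open Pool.Agent.Helper259.AbsHt MvPolynomial

/-- The `Qbar`-points of projective `n`-space. -/
abbrev PSpace (n : ℕ) : Type := Projectivization Qbar (Fin (n + 1) → Qbar)

/-- The absolute logarithmic Weil height of a point of projective space. -/
noncomputable def ht {n : ℕ} (P : PSpace n) : ℝ := absLogHeight P.rep

/-- Zariski closed subsets of projective space: the zero loci of sets of forms. -/
def IsZariskiClosed {n : ℕ} (Z : Set (PSpace n)) : Prop :=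
  ∃ T : Set (MvPolynomial (Fin (n + 1)) Qbar), (∀ F ∈ T, ∃ e : ℕ, F.IsHomogeneous e) ∧
    Z = {P : PSpace n | ∀ F ∈ T, eval P.rep F = 0}

/-- Quasi-projective varieties (not necessarily irreducible), as sets of `Qbar`-points: the
differences of two Zariski closed subsets of a projective space. -/
def IsQuasiProjective {n : ℕ} (X : Set (PSpace n)) : Prop :=
  ∃ Z W : Set (PSpace n), IsZariskiClosed Z ∧ IsZariskiClosed W ∧ X = Z \ W

/-- Regular maps (morphisms) from `X` to a projective space: every point `P` of `X` has a Zariski
open neighbourhood (the complement of the closed set `W`) on which the map is given by forms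
`F 0, …, F m` of one degree without common zero there. -/
def IsRegular {n m : ℕ} (X : Set (PSpace n)) (f : X → PSpace m) : Prop :=
  ∀ P : X, ∃ (W : Set (PSpace n)) (d : ℕ) (F : Fin (m + 1) → MvPolynomial (Fin (n + 1)) Qbar),
    IsZariskiClosed W ∧ P.1 ∉ W ∧ (∀ i, (F i).IsHomogeneous d) ∧
    ∀ Q : X, Q.1 ∉ W → ∃ h : (fun i => eval Q.1.rep (F i)) ≠ 0,
      f Q = Projectivization.mk Qbar (fun i => eval Q.1.rep (F i)) h

/-- Projective embeddings of `X`: isomorphisms of `X` with a quasi-projective variety in some
projective space. -/
structure IsEmbedding {n N : ℕ} (X : Set (PSpace n)) (j : X → PSpace N) : Prop where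
  regular : IsRegular X j
  quasiProjective : IsQuasiProjective (Set.range j)
  /-- `j` has a regular inverse on its image -/
  inverse : ∃ i : Set.range j → PSpace n, IsRegular (Set.range j) i ∧
    ∀ P : X, i ⟨j P, P, rfl⟩ = P.1

/-- Ample heights on `X`: up to a bounded function and a positive factor, the pull-backs of the
standard height under the projective embeddings of `X`. -/
def IsAmpleHeight {n : ℕ} (X : Set (PSpace n)) (h : X → ℝ) : Prop :=
  ∃ (N : ℕ) (j : X → PSpace N) (a C : ℝ), IsEmbedding X j ∧ 0 < a ∧
    ∀ P : X, |h P - a * ht (j P)| ≤ C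

end Pool.Agent.H456R2.QP
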