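import Mathlib
import Pool.Agent.H456R2.Multi

set_option autoImplicit false

namespace Pool.Agent.H456R2

open Pool.Agent.Helper259.AbsHt Pool.Agent.Helper259.HtPoly MvPolynomial

/-- evaluation at a pair of points -/
noncomputable def ev {M N : ℕ} (y : Fin M → Qbar) (x : Fin N → Qbar) :
    MvPolynomial (Fin N) (MvPolynomial (Fin M) Qbar) →+* Qbar :=
  eval₂Hom (eval y) x

lemma prime_case {M N : ℕ} (A B : Type) [CommRing A] [IsDomain A] [Algebra Qbar A] [CommRing B]
    [IsDomain B] [Algebra Qbar B] (p : MvPolynomial (Fin M) Qbar →ₐ[Qbar] A)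
    (hp : Function.Surjective p)
    (q : MvPolynomial (Fin N) (MvPolynomial (Fin M) Qbar) →ₐ[Qbar] B)
    (hq : Function.Surjective q) (f : A →ₐ[Qbar] B) (hf : Function.Injective f)
    (hfC : ∀ r, f (p r) = q (C r)) :
    ∃ u : MvPolynomial (Fin M) Qbar, p u ≠ 0 ∧ ∃ D : ℝ, ∀ y : Fin M → Qbar,
      (∀ r, p r = 0 → eval y r = 0) → eval y u ≠ 0 → ∃ x : Fin N → Qbar,
        (∀ g, q g = 0 → ev y x g = 0) ∧ ∀ i, h1 (x i) ≤ D * (1 + ∑ j, h1 (y j)) := by
  let _ : Algebra A B := f.toRingHom.toAlgebra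
  have halg : ∀ a, algebraMap A B a = f a := fun _ => rfl
  have htower : IsScalarTower Qbar A B :=
    IsScalarTower.of_algebraMap_eq (fun c => (f.commutes c).symm)
  let b : Fin N → B := fun i => q (X i)
  have hadj : Algebra.adjoin A (Set.range b) = ⊤ := by
    rw [eq_top_iff]
    rintro z -
    obtain ⟨g, rfl⟩ := hq z
    induction g using MvPolynomial.induction_on with
    | C r =>
      rw [← hfC, ← halg]
      exact Subalgebra.algebraMap_mem (Algebra.adjoin A (Set.range b)) (p r)
    | add g1 g2 h1 h2 =>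
      rw [map_add]
      exact add_mem h1 h2
    | mul_X g i h =>
      rw [map_mul]
      exact mul_mem h (Algebra.subset_adjoin ⟨i, rfl⟩)
  let H : (A →ₐ[Qbar] Qbar) → ℝ := fun φ => ∑ j, h1 (φ (p (X j)))
  have hH0 : ∀ φ, 0 ≤ H φ := fun φ => Finset.sum_nonneg fun j _ => h1_nonneg _
  have hH : Ctrl A H := by
    refine ⟨hH0, fun a => ?_⟩
    rw [← mem_ctrlSub hH0]
    obtain ⟨g, rfl⟩ := hp a
    induction g using MvPolynomial.induction_on with
    | C r =>
      have : p (C r) = algebraMap Qbar A r := p.commutes r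
      rw [this]
      exact Subalgebra.algebraMap_mem (ctrlSub A H hH0) r
    | add g1 g2 h1 h2 =>
      rw [map_add]
      exact add_mem h1 h2
    | mul_X g i h =>
      rw [map_mul]
      refine mul_mem h ?_
      rw [mem_ctrlSub]
      refine ⟨1, fun φ => ?_⟩
      have h3 : h1 (φ (p (X i))) ≤ H φ :=
        Finset.single_le_sum (f := fun j => h1 (φ (p (X j))))
          (fun j _ => h1_nonneg _) (Finset.mem_univ i)
      linarith
  obtain ⟨u, hu, D, hD⟩ := multi N A hf b hadj H hH 1 one_ne_zero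
  obtain ⟨u', rfl⟩ := hp u
  refine ⟨u', hu, D, fun y hy huy => ?_⟩
  let φ : A →ₐ[Qbar] Qbar := AlgHom.liftOfSurjective p hp (aeval y) (by
    intro a ha
    rw [RingHom.mem_ker] at ha ⊢
    have h2 := hy a ha
    rw [← aeval_eq_eval] at h2
    exact h2)
  have hφ : ∀ r, φ (p r) = eval y r := by
    intro r
    have := AlgHom.liftOfSurjective_apply (f := p) hp (aeval y) (by
      intro a ha
      rw [RingHom.mem_ker] at ha ⊢
      have h2 := hy a ha
      rw [← aeval_eq_eval] at h2
      exact h2) r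
    exact this.trans (congrFun (aeval_eq_eval y) r)
  obtain ⟨ψ, hψ1, -, hψ2⟩ := hD φ (by rw [hφ]; exact huy)
  have hev : ∀ g, ev y (fun i => ψ (b i)) g = ψ (q g) := by
    intro g
    have : ev y (fun i => ψ (b i)) = (ψ : B →+* Qbar).comp (q : _ →+* B) := by
      apply MvPolynomial.ringHom_ext
      · intro r
        rw [ev, coe_eval₂Hom, eval₂_C, RingHom.comp_apply]
        show _ = ψ (q (C r))
        rw [← hfC, ← hφ]
        exact (hψ1 _).symm
      · intro i
        rw [ev, coe_eval₂Hom, eval₂_X, RingHom.comp_apply]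
        rfl
    rw [this]
    rfl
  refine ⟨fun i => ψ (b i), fun g hg => ?_, fun i => ?_⟩
  · rw [hev, hg, map_zero]
  · have h4 := hψ2 i
    have h5 : H φ = ∑ j, h1 (y j) := by
      refine Finset.sum_congr rfl fun j _ => ?_
      rw [hφ, eval_X]
    rw [h5] at h4
    exact h4

/-- A solvable system of polynomial equations depending algebraically on parameters has a
solution whose height is linearly bounded in the height of the parameters. -/
theorem select {M N : ℕ} (I : Ideal (MvPolynomial (Fin N) (MvPolynomial (Fin M) Qbar))) :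
    ∃ D : ℝ, ∀ y : Fin M → Qbar, (∃ x : Fin N → Qbar, ∀ g ∈ I, ev y x g = 0) →
      ∃ x : Fin N → Qbar, (∀ g ∈ I, ev y x g = 0) ∧
        ∀ i, h1 (x i) ≤ D * (1 + ∑ j, h1 (y j)) := by
  have hsum0 : ∀ y : Fin M → Qbar, 0 ≤ ∑ j, h1 (y j) := fun y =>
    Finset.sum_nonneg fun j _ => h1_nonneg _
  -- enlarging the constant
  have enl : ∀ (D E : ℝ), D ≤ E → ∀ (y : Fin M → Qbar) (t : ℝ),
      t ≤ D * (1 + ∑ j, h1 (y j)) → t ≤ E * (1 + ∑ j, h1 (y j)) := by
    intro D E hDE y t ht
    refine ht.trans (mul_le_mul_of_nonneg_right hDE ?_)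
    have := hsum0 y
    linarith
  have hbig : ∀ (J : Ideal (MvPolynomial (Fin M) Qbar)) (a : MvPolynomial (Fin M) Qbar), a ∉ J →
      J < J ⊔ Ideal.span {a} := by
    intro J a ha
    refine lt_of_le_of_ne le_sup_left fun h => ha ?_
    rw [h]
    exact Ideal.mem_sup_right (Ideal.mem_span_singleton_self a)
  have hvan : ∀ (J : Ideal (MvPolynomial (Fin M) Qbar)) (a : MvPolynomial (Fin M) Qbar)
      (y : Fin M → Qbar),
      (∀ r ∈ J, eval y r = 0) → eval y a = 0 → ∀ r ∈ J ⊔ Ideal.span {a}, eval y r = 0 := by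
    intro J a y hy hay r hr
    have hle : J ⊔ Ideal.span {a} ≤ RingHom.ker (eval y) := by
      rw [sup_le_iff]
      refine ⟨fun r hr => hy r hr, ?_⟩
      rw [Ideal.span_singleton_le_iff_mem]
      exact hay
    exact hle hr
  have key : ∀ J : Ideal (MvPolynomial (Fin M) Qbar), ∃ D : ℝ, ∀ y : Fin M → Qbar,
      (∀ r ∈ J, eval y r = 0) → (∃ x : Fin N → Qbar, ∀ g ∈ I, ev y x g = 0) →
      ∃ x : Fin N → Qbar, (∀ g ∈ I, ev y x g = 0) ∧
        ∀ i, h1 (x i) ≤ D * (1 + ∑ j, h1 (y j)) := by
    intro J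
    induction J using IsNoetherian.induction with
    | hgt J ih =>
    by_cases htop : J = ⊤
    · refine ⟨0, fun y hy => ?_⟩
      exfalso
      have := hy 1 (by rw [htop]; trivial)
      rw [map_one] at this
      exact one_ne_zero this
    by_cases hprime : Ideal.IsPrime J
    swap
    · -- not prime
      have : ∃ a b, a * b ∈ J ∧ a ∉ J ∧ b ∉ J := by
        by_contra hcon
        push Not at hcon
        apply hprime
        refine ⟨htop, fun {a b} hab => ?_⟩
        by_cases ha : a ∈ J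
        · exact Or.inl ha
        · exact Or.inr (hcon a b hab ha)
      obtain ⟨a, b, hab, ha, hb⟩ := this
      obtain ⟨D1, hD1⟩ := ih _ (hbig J a ha)
      obtain ⟨D2, hD2⟩ := ih _ (hbig J b hb)
      refine ⟨max D1 D2, fun y hy hx => ?_⟩
      have h0 := hy _ hab
      rw [map_mul] at h0
      rcases mul_eq_zero.mp h0 with h | h
      · obtain ⟨x, hx1, hx2⟩ := hD1 y (hvan J a y hy h) hx
        exact ⟨x, hx1, fun i => enl _ _ (le_max_left _ _) y _ (hx2 i)⟩
      · obtain ⟨x, hx1, hx2⟩ := hD2 y (hvan J b y hy h) hx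
        exact ⟨x, hx1, fun i => enl _ _ (le_max_right _ _) y _ (hx2 i)⟩
    · -- prime
      set IJ : Ideal (MvPolynomial (Fin N) (MvPolynomial (Fin M) Qbar)) := I ⊔ Ideal.map C J
        with hIJ
      by_cases hcomap : IJ.comap C ≤ J
      swap
      · obtain ⟨r, hr, hrJ⟩ := Set.not_subset.mp hcomap
        obtain ⟨D, hD⟩ := ih _ (hbig J r hrJ)
        refine ⟨D, fun y hy hx => hD y (hvan J r y hy ?_) hx⟩
        obtain ⟨x, hx⟩ := hx
        have hle : IJ ≤ RingHom.ker (ev y x) := by
          rw [hIJ, sup_le_iff]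
          refine ⟨fun g hg => hx g hg, ?_⟩
          rw [Ideal.map_le_iff_le_comap]
          intro r hr
          rw [Ideal.mem_comap, RingHom.mem_ker, ev, coe_eval₂Hom, eval₂_C]
          exact hy r hr
        have h2 := hle hr
        rw [RingHom.mem_ker, ev, coe_eval₂Hom, eval₂_C] at h2
        exact h2
      · have hJle : J ≤ IJ.comap C := by
          rw [← Ideal.map_le_iff_le_comap]
          exact le_sup_right
        have hEq : IJ.comap C = J := le_antisymm hcomap hJle
        have hmin : J ∈ (Ideal.comap C IJ).minimalPrimes := by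
          rw [hEq, Ideal.minimalPrimes_eq_subsingleton_self]
          rfl
        obtain ⟨q, hq, hIq, hqJ⟩ := Ideal.exists_comap_eq_of_mem_minimalPrimes (C) J hmin
        let f : (MvPolynomial (Fin M) Qbar ⧸ J) →ₐ[Qbar]
            (MvPolynomial (Fin N) (MvPolynomial (Fin M) Qbar) ⧸ q) :=
          Ideal.quotientMapₐ q (IsScalarTower.toAlgHom Qbar (MvPolynomial (Fin M) Qbar)
            (MvPolynomial (Fin N) (MvPolynomial (Fin M) Qbar))) (le_of_eq hqJ.symm)
        have hf : Function.Injective f := by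
          have h0 : Ideal.comap (C : MvPolynomial (Fin M) Qbar →+*
            MvPolynomial (Fin N) (MvPolynomial (Fin M) Qbar)) q ≤ J := le_of_eq hqJ
          have h1 : J ≤ Ideal.comap (C : MvPolynomial (Fin M) Qbar →+*
            MvPolynomial (Fin N) (MvPolynomial (Fin M) Qbar)) q := le_of_eq hqJ.symm
          have := Ideal.quotientMap_injective' (H := h1) h0
          exact this
        obtain ⟨u', hu', D, hD⟩ := prime_case (MvPolynomial (Fin M) Qbar ⧸ J)
          (MvPolynomial (Fin N) (MvPolynomial (Fin M) Qbar) ⧸ q) (Ideal.Quotient.mkₐ Qbar J)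
          (Ideal.Quotient.mkₐ_surjective Qbar J) (Ideal.Quotient.mkₐ Qbar q)
          (Ideal.Quotient.mkₐ_surjective Qbar q) f hf (fun r => rfl)
        have hu'' : u' ∉ J := by
          intro h
          exact hu' (Ideal.Quotient.eq_zero_iff_mem.mpr h)
        obtain ⟨D2, hD2⟩ := ih _ (hbig J u' hu'')
        refine ⟨max D D2, fun y hy hx => ?_⟩
        by_cases huy : eval y u' = 0
        · obtain ⟨x, hx1, hx2⟩ := hD2 y (hvan J u' y hy huy) hx
          exact ⟨x, hx1, fun i => enl _ _ (le_max_right _ _) y _ (hx2 i)⟩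
        · obtain ⟨x, hx1, hx2⟩ := hD y
            (fun r hr => hy r (Ideal.Quotient.eq_zero_iff_mem.mp hr)) huy
          refine ⟨x, fun g hg => hx1 g ?_, fun i => enl _ _ (le_max_left _ _) y _ (hx2 i)⟩
          exact Ideal.Quotient.eq_zero_iff_mem.mpr (hIq (Ideal.mem_sup_left hg))
  obtain ⟨D, hD⟩ := key ⊥
  refine ⟨D, fun y hx => hD y (fun r hr => ?_) hx⟩
  rw [Ideal.mem_bot] at hr
  rw [hr, map_zero]

end Pool.Agent.H456R2
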