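import Mathlib
import Pool.Agent.H456R2.QPDefs
import Pool.Agent.H456R2.Select

set_option autoImplicit false

namespace Pool.Agent.H456R2.QP

open Pool.Agent.Helper259.AbsHt MvPolynomial

lemma eval_smul {n : ℕ} {F : MvPolynomial (Fin (n + 1)) Qbar} {d : ℕ} (hF : F.IsHomogeneous d)
    (c : Qbar) (x : Fin (n + 1) → Qbar) :
    eval (c • x) F = c ^ d * eval x F := by
  rw [eval_eq', eval_eq', Finset.mul_sum]
  refine Finset.sum_congr rfl fun s hs => ?_
  have hdeg : ∑ i, s i = d := by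
    have h := hF (mem_support_iff.mp hs)
    have h2 : Finsupp.degree s = d := by
      rw [← h, Finsupp.degree_eq_weight_one]; rfl
    rw [← h2, Finsupp.degree_eq_sum]
  simp only [Pi.smul_apply, smul_eq_mul, mul_pow]
  rw [Finset.prod_mul_distrib, Finset.prod_pow_eq_pow_sum, hdeg]
  ring

lemma ht_mk {n : ℕ} (x : Fin (n + 1) → Qbar) (hx : x ≠ 0) :
    ht (Projectivization.mk Qbar x hx : PSpace n) = absLogHeight x := by
  obtain ⟨a, ha⟩ := Projectivization.exists_smul_eq_mk_rep Qbar x hx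
  rw [ht, ← ha]
  exact absLogHeight_smul x a.ne_zero

lemma eval_mk {n : ℕ} {F : MvPolynomial (Fin (n + 1)) Qbar} {d : ℕ} (hF : F.IsHomogeneous d)
    (x : Fin (n + 1) → Qbar) (hx : x ≠ 0) :
    eval (Projectivization.mk Qbar x hx : PSpace n).rep F = 0 ↔ eval x F = 0 := by
  obtain ⟨a, ha⟩ := Projectivization.exists_smul_eq_mk_rep Qbar x hx
  rw [← ha, show (a • x : Fin (n + 1) → Qbar) = (a : Qbar) • x from rfl, eval_smul hF]
  simp [a.ne_zero]

lemma ht_nonneg {n : ℕ} (P : PSpace n) : 0 ≤ ht P := absLogHeight_nonneg _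

/-- finitely many members of a set of polynomials have the same common zeros -/
lemma exists_finset_zeros {n : ℕ} (T : Set (MvPolynomial (Fin (n + 1)) Qbar)) :
    ∃ s : Finset (MvPolynomial (Fin (n + 1)) Qbar), (s : Set (MvPolynomial (Fin (n + 1)) Qbar)) ⊆ T ∧
      ∀ x : Fin (n + 1) → Qbar, (∀ F ∈ s, eval x F = 0) → ∀ F ∈ T, eval x F = 0 := by
  have hfg : (Ideal.span T).FG := IsNoetherian.noetherian _
  obtain ⟨s, hs, hspan⟩ := (Submodule.fg_span_iff_fg_span_finset_subset T).mp hfg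
  refine ⟨s, hs, fun x hx F hF => ?_⟩
  have hle : Ideal.span (s : Set (MvPolynomial (Fin (n + 1)) Qbar)) ≤ RingHom.ker (eval x) := by
    rw [Ideal.span_le]
    intro G hG
    exact hx G hG
  have hmem : F ∈ Ideal.span (s : Set (MvPolynomial (Fin (n + 1)) Qbar)) := by
    have : F ∈ Submodule.span (MvPolynomial (Fin (n + 1)) Qbar) T := Submodule.subset_span hF
    rw [hspan] at this
    exact this
  exact hle hmem

/-- a local expression of a regular map on the set where the form `H` does not vanish -/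
structure Loc {n m : ℕ} (X : Set (PSpace n)) (f : X → PSpace m)
    (t : MvPolynomial (Fin (n + 1)) Qbar × (Fin (m + 1) → MvPolynomial (Fin (n + 1)) Qbar)) :
    Prop where
  homH : ∃ e, t.1.IsHomogeneous e
  homF : ∃ d, ∀ i, (t.2 i).IsHomogeneous d
  eq : ∀ Q : X, eval Q.1.rep t.1 ≠ 0 → ∃ h : (fun i => eval Q.1.rep (t.2 i)) ≠ 0,
    f Q = Projectivization.mk Qbar (fun i => eval Q.1.rep (t.2 i)) h

/-- finitely many local expressions suffice -/
lemma exists_finite_loc {n m : ℕ} (X : Set (PSpace n)) (f : X → PSpace m) (hf : IsRegular X f) :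
    ∃ s : Set (MvPolynomial (Fin (n + 1)) Qbar × (Fin (m + 1) → MvPolynomial (Fin (n + 1)) Qbar)),
      s.Finite ∧ (∀ t ∈ s, Loc X f t) ∧ ∀ P : X, ∃ t ∈ s, eval P.1.rep t.1 ≠ 0 := by
  classical
  have hloc : ∀ P : X, ∃ t : MvPolynomial (Fin (n + 1)) Qbar ×
      (Fin (m + 1) → MvPolynomial (Fin (n + 1)) Qbar), Loc X f t ∧ eval P.1.rep t.1 ≠ 0 := by
    intro P
    obtain ⟨W, d, F, ⟨T, hT, rfl⟩, hPW, hF, h⟩ := hf P
    simp only [Set.mem_ofPred_eq, not_forall] at hPW
    obtain ⟨H, hHT, hHP⟩ := hPW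
    refine ⟨(H, F), ⟨hT H hHT, ⟨d, hF⟩, fun Q hQ => h Q ?_⟩, hHP⟩
    intro hQ'
    exact hQ (hQ' H hHT)
  choose τ hτ1 hτ2 using hloc
  obtain ⟨s, hs, hzero⟩ := exists_finset_zeros (Set.range fun P : X => (τ P).1)
  have hpre : ∀ H : s, ∃ P : X, (τ P).1 = H := fun H => hs H.2
  choose σ hσ using hpre
  refine ⟨Set.range (fun H : s => τ (σ H)), Set.finite_range _, ?_, fun P => ?_⟩
  · rintro _ ⟨H, rfl⟩
    exact hτ1 _
  · by_contra hcon
    push Not at hcon
    apply hτ2 P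
    apply hzero P.1.rep _ _ ⟨P, rfl⟩
    intro H hH
    have := hcon (τ (σ ⟨H, hH⟩)) ⟨⟨H, hH⟩, rfl⟩
    rwa [hσ ⟨H, hH⟩] at this

/-- Upper bound for heights of images under regular maps. -/
theorem ht_le {n m : ℕ} (X : Set (PSpace n)) (f : X → PSpace m) (hf : IsRegular X f) :
    ∃ D : ℝ, 0 ≤ D ∧ ∀ P : X, ht (f P) ≤ D * (1 + ht P.1) := by
  obtain ⟨s, hsfin, hsloc, hscov⟩ := exists_finite_loc X f hf
  have hb : ∀ t ∈ s, ∃ D : ℝ, 0 ≤ D ∧ ∀ P : X, eval P.1.rep t.1 ≠ 0 →
      ht (f P) ≤ D * (1 + ht P.1) := by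
    intro t ht'
    obtain ⟨d, hd⟩ := (hsloc t ht').homF
    obtain ⟨C, hC⟩ := absLogHeight_eval d t.2 hd
    refine ⟨|C| + d, by positivity, fun P hP => ?_⟩
    obtain ⟨h, he⟩ := (hsloc t ht').eq P hP
    rw [he, ht_mk]
    have h1 := hC P.1.rep
    have h2 := le_abs_self C
    have h3 : 0 ≤ absLogHeight P.1.rep := absLogHeight_nonneg _
    have h4 := mul_nonneg (abs_nonneg C) h3
    show _ ≤ (|C| + d) * (1 + absLogHeight P.1.rep)
    have h5 : (0 : ℝ) ≤ d := Nat.cast_nonneg d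
    nlinarith
  choose! D hD0 hD using hb
  refine ⟨∑ t ∈ hsfin.toFinset, D t, Finset.sum_nonneg fun t h => hD0 t (hsfin.mem_toFinset.mp h),
    fun P => ?_⟩
  obtain ⟨t, ht', hP⟩ := hscov P
  refine (hD t ht' P hP).trans ?_
  refine mul_le_mul_of_nonneg_right ?_ (by have := ht_nonneg P.1; linarith)
  exact Finset.single_le_sum (f := D) (fun t h => hD0 t (hsfin.mem_toFinset.mp h))
    (hsfin.mem_toFinset.mpr ht')

/-- embedding of the polynomials in the coordinates into the big ring -/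
noncomputable def emb {n m : ℕ} : MvPolynomial (Fin (n + 1)) Qbar →+*
    MvPolynomial (Fin (n + 2)) (MvPolynomial (Fin (m + 1)) Qbar) :=
  eval₂Hom (C.comp C) (fun i => X (Fin.castSucc i))

lemma ev_emb {n m : ℕ} (y : Fin (m + 1) → Qbar) (x : Fin (n + 2) → Qbar)
    (p : MvPolynomial (Fin (n + 1)) Qbar) :
    ev y x (emb p) = eval (fun i => x (Fin.castSucc i)) p := by
  have : (ev y x).comp emb = eval (fun i => x (Fin.castSucc i)) := by
    apply MvPolynomial.ringHom_ext
    · intro r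
      simp [ev, emb]
    · intro i
      simp [ev, emb]
  rw [← this]
  rfl

/-- **Small points in the fibres of a regular map.** -/
theorem exists_small {n m : ℕ} (X : Set (PSpace n)) (hX : IsQuasiProjective X) (f : X → PSpace m)
    (hf : IsRegular X f) :
    ∃ D : ℝ, 0 ≤ D ∧ ∀ P : X, ∃ Q : X, f Q = f P ∧ ht Q.1 ≤ D * (1 + ht (f P)) := by
  classical
  obtain ⟨s, hsfin, hsloc, hscov⟩ := exists_finite_loc X f hf
  obtain ⟨Z, W, ⟨TZ, hTZ, rfl⟩, ⟨TW, hTW, rfl⟩, hXeq⟩ := hX
  obtain ⟨sW, hsW, hsW0⟩ := exists_finset_zeros TW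
  have hmemX : ∀ Q : PSpace n, Q ∈ X ↔ (∀ F ∈ TZ, eval Q.rep F = 0) ∧ ∃ K ∈ TW, eval Q.rep K ≠ 0 := by
    intro Q
    rw [hXeq]
    simp only [Set.mem_sdiff, Set.mem_ofPred_eq, not_forall]
    constructor
    · rintro ⟨h1, K, hK, hK2⟩
      exact ⟨h1, K, hK, hK2⟩
    · rintro ⟨h1, K, hK, hK2⟩
      exact ⟨h1, K, hK, hK2⟩
  -- one system of equations for each choice of charts and local expressions
  have hsys : ∀ (i : Fin (n + 1)) (j : Fin (m + 1)), ∀ t ∈ s, ∀ K ∈ sW, ∃ D : ℝ, 0 ≤ D ∧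
      ∀ P : X, P.1.rep i ≠ 0 → (f P).rep j ≠ 0 → eval P.1.rep t.1 ≠ 0 → eval P.1.rep K ≠ 0 →
        ∃ Q : X, f Q = f P ∧ ht Q.1 ≤ D * (1 + ht (f P)) := by
    intro i j t ht' K hK
    set G : Set (MvPolynomial (Fin (n + 2)) (MvPolynomial (Fin (m + 1)) Qbar)) :=
      {MvPolynomial.X (Fin.castSucc i) - 1} ∪ (emb '' TZ) ∪
      {MvPolynomial.X (Fin.last (n + 1)) * emb (t.1 * K * t.2 j) - 1} ∪
      (Set.range fun l => emb (t.2 l) - C (MvPolynomial.X l) * emb (t.2 j)) with hG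
    obtain ⟨D, hD⟩ := select (Ideal.span G)
    have hvan : ∀ (y : Fin (m + 1) → Qbar) (x : Fin (n + 2) → Qbar),
        (∀ g ∈ Ideal.span G, ev y x g = 0) ↔ ∀ g ∈ G, ev y x g = 0 := by
      intro y x
      constructor
      · intro h g hg
        exact h g (Ideal.subset_span hg)
      · intro h
        have hle : Ideal.span G ≤ RingHom.ker (ev y x) := by
          rw [Ideal.span_le]
          exact h
        exact fun g hg => hle hg
    obtain ⟨eH, heH⟩ := (hsloc t ht').homH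
    obtain ⟨dF, hdF⟩ := (hsloc t ht').homF
    obtain ⟨eK, heK⟩ := hTW K (hsW hK)
    refine ⟨(n + 1) * (|D| * (m + 1)), by positivity, fun P hPi hPj hPt hPK => ?_⟩
    set x : Fin (n + 1) → Qbar := (P.1.rep i)⁻¹ • P.1.rep with hx
    set y : Fin (m + 1) → Qbar := ((f P).rep j)⁻¹ • (f P).rep with hy
    have hyj : y j = 1 := by
      rw [hy, Pi.smul_apply, smul_eq_mul, inv_mul_cancel₀ hPj]
    have hxi : x i = 1 := by
      rw [hx, Pi.smul_apply, smul_eq_mul, inv_mul_cancel₀ hPi]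
    have hxinv : (P.1.rep i)⁻¹ ≠ 0 := inv_ne_zero hPi
    have hxt : eval x t.1 ≠ 0 := by
      rw [hx, eval_smul heH]; exact mul_ne_zero (pow_ne_zero _ hxinv) hPt
    have hxK : eval x K ≠ 0 := by
      rw [hx, eval_smul heK]; exact mul_ne_zero (pow_ne_zero _ hxinv) hPK
    obtain ⟨hF0, hFP⟩ := (hsloc t ht').eq P hPt
    -- `F x` is proportional to `y`
    obtain ⟨a, ha⟩ := Projectivization.exists_smul_eq_mk_rep Qbar
      (fun l => eval P.1.rep (t.2 l)) hF0
    rw [← hFP] at ha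
    have ha' : ∀ l, (a : Qbar) * eval P.1.rep (t.2 l) = (f P).rep l := by
      intro l
      rw [← ha]
      rfl
    have hxF : ∀ l, eval x (t.2 l) = (P.1.rep i)⁻¹ ^ dF * eval P.1.rep (t.2 l) := fun l => by
      rw [hx, eval_smul (hdF l)]
    have hxFj : eval x (t.2 j) ≠ 0 := by
      rw [hxF]
      refine mul_ne_zero (pow_ne_zero _ hxinv) ?_
      intro h
      apply hPj
      rw [← ha', h, mul_zero]
    have hprop : ∀ l, eval x (t.2 l) = y l * eval x (t.2 j) := by
      intro l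
      rw [hxF, hxF, hy, Pi.smul_apply, smul_eq_mul, ← ha' l, ← ha' j]
      have h1 : (a : Qbar) ≠ 0 := a.ne_zero
      have h2 : eval P.1.rep (t.2 j) ≠ 0 := by
        intro h
        apply hPj
        rw [← ha', h, mul_zero]
      field_simp
    obtain ⟨w, hw⟩ : ∃ w : Qbar, w * eval x (t.1 * K * t.2 j) = 1 := by
      refine ⟨(eval x (t.1 * K * t.2 j))⁻¹, inv_mul_cancel₀ ?_⟩
      rw [map_mul, map_mul]
      exact mul_ne_zero (mul_ne_zero hxt hxK) hxFj
    obtain ⟨z, hz, hzh⟩ := hD y ⟨Fin.snoc x w, by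
      rw [hvan]
      have hcs : (fun l : Fin (n + 1) => (Fin.snoc x w :
          Fin (n + 2) → Qbar) (Fin.castSucc l)) = x := by
        funext l
        exact Fin.snoc_castSucc (α := fun _ => Qbar) _ _ _
      rintro g (((hg | ⟨F, hF, rfl⟩) | hg) | ⟨l, rfl⟩)
      · rw [Set.mem_singleton_iff] at hg
        rw [hg, map_sub, map_one, ev, coe_eval₂Hom, eval₂_X,
          Fin.snoc_castSucc (α := fun _ => Qbar), hxi, sub_self]
      · rw [ev_emb, hcs]
        obtain ⟨e, he⟩ := hTZ F hF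
        rw [hx, eval_smul he, ((hmemX P.1).mp P.2).1 F hF, mul_zero]
      · rw [Set.mem_singleton_iff] at hg
        rw [hg, map_sub, map_one, map_mul, ev_emb, hcs, ev, coe_eval₂Hom, eval₂_X,
          Fin.snoc_last (α := fun _ => Qbar), hw, sub_self]
      · show ev _ _ (emb (t.2 l) - C (MvPolynomial.X l) * emb (t.2 j)) = 0
        rw [map_sub, map_mul, ev_emb, ev_emb, hcs, hprop l]
        simp [ev]⟩
    rw [hvan] at hz
    set x' : Fin (n + 1) → Qbar := fun l => z (Fin.castSucc l) with hx'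
    have h1x : x' i = 1 := by
      have := hz (MvPolynomial.X (Fin.castSucc i) - 1) (Or.inl (Or.inl (Or.inl rfl)))
      rw [map_sub, map_one, ev, coe_eval₂Hom, eval₂_X, sub_eq_zero] at this
      exact this
    have h2 : ∀ F ∈ TZ, eval x' F = 0 := by
      intro F hF
      have := hz (emb F) (Or.inl (Or.inl (Or.inr ⟨F, hF, rfl⟩)))
      rwa [ev_emb] at this
    have h3 : eval x' (t.1 * K * t.2 j) ≠ 0 := by
      have := hz _ (Or.inl (Or.inr rfl))
      rw [map_sub, map_one, map_mul, ev_emb] at this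
      intro h
      rw [h, mul_zero, zero_sub, neg_eq_zero] at this
      exact one_ne_zero this
    rw [map_mul, map_mul] at h3
    have h3t : eval x' t.1 ≠ 0 := left_ne_zero_of_mul (left_ne_zero_of_mul h3)
    have h3K : eval x' K ≠ 0 := right_ne_zero_of_mul (left_ne_zero_of_mul h3)
    have h3j : eval x' (t.2 j) ≠ 0 := right_ne_zero_of_mul h3
    have h4 : ∀ l, eval x' (t.2 l) = y l * eval x' (t.2 j) := by
      intro l
      have := hz _ (Or.inr ⟨l, rfl⟩)
      rw [map_sub, map_mul, ev_emb, ev_emb, sub_eq_zero] at this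
      rw [hx', this]
      simp [ev]
    have hx'0 : x' ≠ 0 := by
      intro h
      rw [h] at h1x
      exact zero_ne_one h1x
    have hQX : (Projectivization.mk Qbar x' hx'0 : PSpace n) ∈ X := by
      rw [hmemX]
      refine ⟨fun F hF => ?_, K, hsW hK, ?_⟩
      · obtain ⟨e, he⟩ := hTZ F hF
        rw [eval_mk he]
        exact h2 F hF
      · rw [Ne, eval_mk heK]
        exact h3K
    refine ⟨⟨Projectivization.mk Qbar x' hx'0, hQX⟩, ?_, ?_⟩
    · have hQt : eval (Projectivization.mk Qbar x' hx'0 : PSpace n).rep t.1 ≠ 0 := by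
        rw [Ne, eval_mk heH]; exact h3t
      obtain ⟨hne, hfQ⟩ := (hsloc t ht').eq ⟨_, hQX⟩ hQt
      rw [hfQ]
      have hyrep : f P = Projectivization.mk Qbar (f P).rep (f P).rep_nonzero :=
        (Projectivization.mk_rep _).symm
      rw [hyrep, Projectivization.mk_eq_mk_iff']
      obtain ⟨b, hb⟩ := Projectivization.exists_smul_eq_mk_rep Qbar x' hx'0
      refine ⟨(b : Qbar) ^ dF * eval x' (t.2 j) * ((f P).rep j)⁻¹, ?_⟩
      funext l
      rw [← hb]
      have e1 : eval (b • x' : Fin (n + 1) → Qbar) (t.2 l) = (b : Qbar) ^ dF * eval x' (t.2 l) :=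
        eval_smul (hdF l) (b : Qbar) x'
      show (_ • (f P).rep : Fin (m + 1) → Qbar) l = eval (b • x') (t.2 l)
      rw [e1, h4 l, hy, Pi.smul_apply, Pi.smul_apply, smul_eq_mul, smul_eq_mul]
      ring
    · rw [ht_mk]
      have h5 := absLogHeight_le_sum x'
      have h6 : ∀ l, absLogHeight ![1, x' l] ≤ |D| * (m + 1) * (1 + ht (f P)) := by
        intro l
        have h7 : h1 (x' l) ≤ D * (1 + ∑ j, h1 (y j)) := hzh (Fin.castSucc l)
        have h8 : ∑ j, h1 (y j) ≤ (m + 1) * ht (f P) := by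
          have h9 : ∀ l ∈ Finset.univ, h1 (y l) ≤ ht (f P) := by
            intro l _
            have h10 := aff_le_of_eq_one y j hyj l
            have h11 : absLogHeight y = ht (f P) := by
              rw [hy, absLogHeight_smul _ (inv_ne_zero hPj)]
              rfl
            rw [h11] at h10
            exact h10
          have := Finset.sum_le_card_nsmul _ _ _ h9
          simpa using this
        have h12 : 0 ≤ ∑ j, h1 (y j) := Finset.sum_nonneg fun j _ => h1_nonneg _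
        have h13 : h1 (x' l) ≤ |D| * (1 + ∑ j, h1 (y j)) :=
          h7.trans (mul_le_mul_of_nonneg_right (le_abs_self D) (by linarith))
        have h14 : |D| * (1 + ∑ j, h1 (y j)) ≤ |D| * ((m + 1) * (1 + ht (f P))) := by
          refine mul_le_mul_of_nonneg_left ?_ (abs_nonneg D)
          have : (0 : ℝ) ≤ m := Nat.cast_nonneg m
          nlinarith
        calc absLogHeight ![1, x' l] = h1 (x' l) := rfl
          _ ≤ _ := h13.trans h14
          _ = _ := by ring
      have h7 := Finset.sum_le_card_nsmul Finset.univ _ _ (fun l _ => h6 l)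
      rw [Finset.card_univ, Fintype.card_fin, nsmul_eq_mul] at h7
      refine (h5.trans h7).trans (le_of_eq ?_)
      push_cast
      ring
  choose! D hD0 hD using hsys
  set E : ℝ := ∑ i, ∑ j, ∑ t ∈ hsfin.toFinset, ∑ K ∈ sW, D i j t K with hE
  have hE0 : ∀ (i : Fin (n + 1)) (j : Fin (m + 1)), ∀ t ∈ s, ∀ K ∈ sW, D i j t K ≤ E := by
    intro i j t ht' K hK
    have n4 : ∀ i j, ∀ t ∈ hsfin.toFinset, 0 ≤ ∑ K ∈ sW, D i j t K := fun i j t ht' =>
      Finset.sum_nonneg fun K hK => hD0 i j t (hsfin.mem_toFinset.mp ht') K hK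
    have n3 : ∀ i j, 0 ≤ ∑ t ∈ hsfin.toFinset, ∑ K ∈ sW, D i j t K := fun i j =>
      Finset.sum_nonneg fun t ht' => n4 i j t ht'
    have n2 : ∀ i, 0 ≤ ∑ j, ∑ t ∈ hsfin.toFinset, ∑ K ∈ sW, D i j t K := fun i =>
      Finset.sum_nonneg fun j _ => n3 i j
    calc D i j t K ≤ ∑ K ∈ sW, D i j t K :=
          Finset.single_le_sum (f := fun K => D i j t K) (fun K hK => hD0 i j t ht' K hK) hK
      _ ≤ ∑ t ∈ hsfin.toFinset, ∑ K ∈ sW, D i j t K :=
          Finset.single_le_sum (f := fun t => ∑ K ∈ sW, D i j t K) (fun t h => n4 i j t h)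
            (hsfin.mem_toFinset.mpr ht')
      _ ≤ ∑ j, ∑ t ∈ hsfin.toFinset, ∑ K ∈ sW, D i j t K :=
          Finset.single_le_sum (f := fun j => ∑ t ∈ hsfin.toFinset, ∑ K ∈ sW, D i j t K)
            (fun j _ => n3 i j) (Finset.mem_univ j)
      _ ≤ E := Finset.single_le_sum
            (f := fun i => ∑ j, ∑ t ∈ hsfin.toFinset, ∑ K ∈ sW, D i j t K)
            (fun i _ => n2 i) (Finset.mem_univ i)
  have hEnn : 0 ≤ E := by
    refine Finset.sum_nonneg fun i _ => Finset.sum_nonneg fun j _ =>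
      Finset.sum_nonneg fun t ht' => Finset.sum_nonneg fun K hK => ?_
    exact hD0 i j t (hsfin.mem_toFinset.mp ht') K hK
  refine ⟨E, hEnn, fun P => ?_⟩
  obtain ⟨i, hi⟩ : ∃ i, P.1.rep i ≠ 0 := Function.ne_iff.mp P.1.rep_nonzero
  obtain ⟨j, hj⟩ : ∃ j, (f P).rep j ≠ 0 := Function.ne_iff.mp (f P).rep_nonzero
  obtain ⟨t, ht', htP⟩ := hscov P
  obtain ⟨K, hK, hKP⟩ : ∃ K ∈ sW, eval P.1.rep K ≠ 0 := by
    by_contra hcon
    push Not at hcon
    obtain ⟨K, hK, hKP⟩ := ((hmemX P.1).mp P.2).2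
    exact hKP (hsW0 _ hcon K hK)
  obtain ⟨Q, hQ1, hQ2⟩ := hD i j t ht' K hK P hi hj htP hKP
  refine ⟨Q, hQ1, hQ2.trans ?_⟩
  exact mul_le_mul_of_nonneg_right (hE0 i j t ht' K hK) (by have := ht_nonneg (f P); linarith)

/-- an ample height is comparable with the restriction of the standard height -/
theorem ample_comparable {n : ℕ} (X : Set (PSpace n)) (h : X → ℝ) (hh : IsAmpleHeight X h) :
    ∃ D : ℝ, 0 < D ∧ ∀ P : X, h P ≤ D * (1 + ht P.1) ∧ ht P.1 ≤ D * (1 + |h P|) ∧ -D ≤ h P ∧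
      ht P.1 ≤ D * (1 + D + h P) := by
  obtain ⟨N, j, a, C, hj, ha, hC⟩ := hh
  obtain ⟨D1, hD1, h1'⟩ := ht_le X j hj.regular
  obtain ⟨i, hi, hij⟩ := hj.inverse
  obtain ⟨D2, hD2, h2'⟩ := ht_le _ i hi
  have hC0 : 0 ≤ |C| := abs_nonneg C
  have h3' : ∀ P : X, ht P.1 ≤ D2 * (1 + ht (j P)) := by
    intro P
    have := h2' ⟨j P, P, rfl⟩
    rw [hij] at this
    exact this
  set D := |C| + a * D1 + D2 * (1 + |C| / a + 1 / a) + 1 with hD
  have hpos : 0 < D := by positivity
  have key : ∀ P : X, ht P.1 ≤ D2 * (1 + (|C| + h P) / a) := by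
    intro P
    have e1 := (abs_le.mp (hC P)).1
    have e2 := le_abs_self C
    have e3 : ht (j P) ≤ (|C| + h P) / a := by
      rw [le_div_iff₀ ha]
      linarith
    refine (h3' P).trans (mul_le_mul_of_nonneg_left (by linarith) hD2)
  have hlow : ∀ P : X, -|C| ≤ h P := by
    intro P
    have e1 := (abs_le.mp (hC P)).1
    have e2 := le_abs_self C
    have e3 := mul_nonneg ha.le (ht_nonneg (j P))
    linarith
  have hCD : |C| ≤ D := by
    have : 0 ≤ a * D1 + D2 * (1 + |C| / a + 1 / a) + 1 := by positivity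
    linarith
  have hcoef : D2 * (1 + |C| / a + 1 / a) ≤ D := by
    have : 0 ≤ |C| + a * D1 + 1 := by positivity
    linarith
  have key2 : ∀ (P : X) (t : ℝ), 0 ≤ t → h P ≤ t → ht P.1 ≤ D * (1 + t) := by
    intro P t ht0 htP
    refine (key P).trans ?_
    have e1 : (|C| + h P) / a ≤ |C| / a + 1 / a * t := by
      rw [div_add' _ _ _ ha.ne', div_le_div_iff_of_pos_right ha]
      have : 1 / a * t * a = t := by field_simp
      rw [this]; linarith
    have e2 : D2 * (1 + (|C| + h P) / a) ≤ D2 * (1 + |C| / a + 1 / a * t) :=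
      mul_le_mul_of_nonneg_left (by linarith) hD2
    have e3 : D2 * (1 + |C| / a + 1 / a * t) ≤ D2 * ((1 + |C| / a + 1 / a) * (1 + t)) := by
      refine mul_le_mul_of_nonneg_left ?_ hD2
      have p1 : 0 ≤ |C| / a := by positivity
      have p2 : 0 ≤ 1 / a := by positivity
      nlinarith [mul_nonneg p1 ht0, mul_nonneg p2 ht0]
    have e4 : D2 * ((1 + |C| / a + 1 / a) * (1 + t)) ≤ D * (1 + t) := by
      rw [← mul_assoc]
      exact mul_le_mul_of_nonneg_right hcoef (by linarith)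
    linarith
  refine ⟨D, hpos, fun P => ⟨?_, key2 P _ (abs_nonneg _) (le_abs_self _), ?_, ?_⟩⟩
  · have e1 := (abs_le.mp (hC P)).2
    have e2 := le_abs_self C
    have e3 := mul_le_mul_of_nonneg_left (h1' P) ha.le
    have e4 := ht_nonneg P.1
    have e5 : a * (D1 * (1 + ht P.1)) + |C| ≤ D * (1 + ht P.1) := by
      have q1 : a * (D1 * (1 + ht P.1)) + |C| ≤ (a * D1 + |C|) * (1 + ht P.1) := by
        nlinarith [mul_nonneg hC0 e4]
      have q2 : (a * D1 + |C|) * (1 + ht P.1) ≤ D * (1 + ht P.1) := by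
        refine mul_le_mul_of_nonneg_right ?_ (by linarith)
        have : 0 ≤ D2 * (1 + |C| / a + 1 / a) + 1 := by positivity
        linarith
      linarith
    linarith
  · have := hlow P
    linarith
  · have e1 := hlow P
    have := key2 P (D + h P) (by linarith) (by linarith)
    refine this.trans (le_of_eq (by ring))

end Pool.Agent.H456R2.QP
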